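import Mathlib

set_option autoImplicit false

open Filter Topology Finset
open scoped Pointwise ENNReal

namespace Pool.Agent.Results.MP_2cfe26_al.Vanishes

/-- The trajectory: the sumset of the translates of `X` by the elements of `F`. -/
def traj {G A : Type*} [Group G] [AddCommGroup A] [DistribMulAction G A] (F : Finset G)
    (X : Set A) : Set A :=
  ∑ g ∈ F, g • X

/-- Right Folner nets (along an arbitrary filter). -/
def Folner {G ι : Type*} [Group G] (l : Filter ι) (F : ι → Finset G) : Prop :=
  (∀ i, (F i).Nonempty) ∧ ∀ E : Finset G,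
    Tendsto (fun i => (Set.ncard {s | s ∈ F i ∧ ¬ ∀ e ∈ E, s * e ∈ F i} : ℝ) / (F i).card) l (𝓝 0)

/-- The entropy computed along the net `F`. -/
noncomputable def ent (A : Type*) {G ι : Type*} [Group G] [AddCommGroup A] [DistribMulAction G A]
    (l : Filter ι) (F : ι → Finset G) : ℝ≥0∞ :=
  ⨆ (X : AddSubgroup A) (_ : Finite X),
    limsup (fun i => ENNReal.ofReal (Real.log (traj (F i) X : Set A).ncard / (F i).card)) l

theorem weights {G : Type*} [DecidableEq G] (φ : Finset G → ℝ) (h0 : φ ∅ = 0)
    (hs : ∀ S T, φ (S ∪ T) + φ (S ∩ T) ≤ φ S + φ T)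
    (S : Finset G) : ∃ w : G → ℝ, ∑ s ∈ S, w s = φ S ∧ ∀ K, ∑ s ∈ S ∩ K, w s ≤ φ (S ∩ K) := by
  induction S using Finset.induction_on with
  | empty => exact ⟨0, by simp [h0], by simp [h0]⟩
  | insert a S ha ih =>
    obtain ⟨w, h1, h2⟩ := ih
    have e : ∀ T ⊆ S, ∑ s ∈ T, Function.update w a (φ (insert a S) - φ S) s = ∑ s ∈ T, w s :=
      fun T hT => sum_congr rfl fun x hx =>
        Function.update_of_ne (fun h : x = a => ha (h ▸ hT hx)) _ _
    refine ⟨Function.update w a (φ (insert a S) - φ S), ?_, fun K => ?_⟩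
    · rw [sum_insert ha, e S le_rfl, h1]
      simp
    · by_cases hK : a ∈ K
      · rw [insert_inter_of_mem hK, sum_insert (by simp [ha]), e _ inter_subset_left]
        have := hs (insert a (S ∩ K)) S
        have e1 : insert a (S ∩ K) ∪ S = insert a S := by
          ext x
          simp only [mem_union, mem_insert, mem_inter]
          tauto
        have e2 : insert a (S ∩ K) ∩ S = S ∩ K := by
          rw [insert_inter_of_notMem ha, inter_assoc, inter_comm K, ← inter_assoc, inter_self]
        rw [e1, e2] at this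
        have := h2 K
        simp only [Function.update_self]
        linarith
      · rw [insert_inter_of_notMem hK, e _ inter_subset_left]
        exact h2 K

theorem shearer {G : Type*} [Group G] [DecidableEq G] (φ : Finset G → ℝ) (h0 : φ ∅ = 0)
    (hm : ∀ S T, S ⊆ T → φ S ≤ φ T) (hs : ∀ S T, φ (S ∪ T) + φ (S ∩ T) ≤ φ S + φ T)
    (hi : ∀ (g : G) S, φ (g • S) = φ S) (S K : Finset G) :
    #K * φ S ≤ #(S * K⁻¹) * φ K := by
  obtain ⟨w, h1, h2⟩ := weights φ h0 hs S
  calc #K * φ S = ∑ s ∈ S, ∑ g ∈ S * K⁻¹, if s ∈ g • K then w s else 0 := by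
        rw [← h1, mul_sum]
        refine sum_congr rfl fun s hs => ?_
        rw [← sum_filter, sum_const, nsmul_eq_mul]
        congr 2
        refine card_bij (fun k _ => s * k⁻¹) (fun k hk => ?_) (by simp) fun g hg => ?_
        · exact mem_filter.2 ⟨mul_mem_mul hs (inv_mem_inv hk), mem_smul_finset.2 ⟨k, hk, by simp⟩⟩
        · obtain ⟨k, hk, rfl⟩ := mem_smul_finset.1 (mem_filter.1 hg).2
          exact ⟨k, hk, by simp⟩
    _ = ∑ g ∈ S * K⁻¹, ∑ s ∈ S ∩ g • K, w s := by
        rw [sum_comm]
        exact sum_congr rfl fun g _ => by rw [← sum_filter, filter_mem_eq_inter]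
    _ ≤ ∑ g ∈ S * K⁻¹, φ K :=
        sum_le_sum fun g _ => (h2 _).trans ((hm _ _ inter_subset_right).trans (hi g K).le)
    _ = _ := by rw [sum_const, nsmul_eq_mul]

theorem card_mul_le' {G : Type*} [Group G] [DecidableEq G] (S E : Finset G) :
    #(S * E) ≤ #S + Set.ncard {s | s ∈ S ∧ ¬ ∀ e ∈ E, s * e ∈ S} * #E := by
  have e : {s | s ∈ S ∧ ¬ ∀ e ∈ E, s * e ∈ S} = ↑(S.filter fun s => ¬ ∀ e ∈ E, s * e ∈ S) := by
    simp
  rw [e, Set.ncard_coe_finset]
  refine le_trans (card_le_card ?_) ((card_union_le _ _).trans (Nat.add_le_add_left Finset.card_mul_le _))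
  intro x hx
  obtain ⟨s, hs, e, he, rfl⟩ := mem_mul.1 hx
  by_cases h : ∀ e ∈ E, s * e ∈ S
  · exact mem_union_left _ (h e he)
  · exact mem_union_right _ (mul_mem_mul (mem_filter.2 ⟨hs, h⟩) he)

section
variable {G A : Type*} [Group G] [AddCommGroup A] [DistribMulAction G A]

def U (F : Finset G) (X : AddSubgroup A) : AddSubgroup A := F.sup fun g => g • X

theorem coe_U (F : Finset G) (X : AddSubgroup A) : (U F X : Set A) = traj F X := by
  classical
  induction F using Finset.induction_on with
  | empty => simp [U, traj]; rfl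
  | insert a S ha ih =>
    rw [traj, sum_insert ha, U, sup_insert, AddSubgroup.add_normal]
    exact congrArg _ ih

theorem finite_U (F : Finset G) (X : AddSubgroup A) [Finite X] : Finite (U F X) := by
  classical
  have : (traj F X : Set A).Finite := by
    induction F using Finset.induction_on with
    | empty => simp [traj]
    | insert a S ha ih =>
      rw [traj, sum_insert ha]
      exact (Set.Finite.smul_set (Set.toFinite _)).add ih
  rw [← coe_U] at this
  exact this

theorem card_sup_inf (V W : AddSubgroup A) :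
    Nat.card (V ⊔ W :) * Nat.card (V ⊓ W :) = Nat.card V * Nat.card W := by
  have h1 := AddSubgroup.relIndex_mul_relIndex ⊥ W (V ⊔ W) bot_le le_sup_right
  have h2 := AddSubgroup.relIndex_mul_relIndex ⊥ (V ⊓ W) V bot_le inf_le_left
  simp only [AddSubgroup.relIndex_bot_left, AddSubgroup.relIndex_sup_right,
    AddSubgroup.inf_relIndex_left] at h1 h2
  rw [← h1, ← h2]
  ring

theorem U_mono {S T : Finset G} (h : S ⊆ T) (X : AddSubgroup A) : U S X ≤ U T X := sup_mono h

theorem smul_U [DecidableEq G] (g : G) (F : Finset G) (X : AddSubgroup A) :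
    U (g • F) X = g • U F X := by
  apply SetLike.coe_injective
  rw [AddSubgroup.coe_pointwise_smul, coe_U, coe_U, traj, traj, smul_finset_def,
    sum_image (by simp)]
  induction F using Finset.induction_on with
  | empty => simp
  | insert a S ha ih => rw [sum_insert ha, sum_insert ha, ih, smul_add, smul_eq_mul, mul_smul]

theorem main [DecidableEq G] (X : AddSubgroup A) [Finite X] (S K : Finset G) :
    #K * Real.log (Nat.card (U S X)) ≤ #(S * K⁻¹) * Real.log (Nat.card (U K X)) := by
  have pos : ∀ S : Finset G, (0 : ℝ) < Nat.card (U S X) := fun S => by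
    have := finite_U S X
    exact_mod_cast Nat.card_pos
  refine shearer (fun S => Real.log (Nat.card (U S X))) (by simp [U]) ?_ ?_ ?_ S K
  · intro S T h
    have := finite_U T X
    exact Real.log_le_log (pos S) (by exact_mod_cast AddSubgroup.card_le_of_le (U_mono h X))
  · intro S T
    rw [← Real.log_mul (pos _).ne' (pos _).ne', ← Real.log_mul (pos _).ne' (pos _).ne']
    refine Real.log_le_log (mul_pos (pos _) (pos _)) ?_
    norm_cast
    rw [← card_sup_inf (U S X), show U (S ∪ T) X = U S X ⊔ U T X from sup_union]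
    have h1 := finite_U S X
    have h2 : U (S ∩ T) X ≤ U S X ⊓ U T X :=
      le_inf (U_mono inter_subset_left X) (U_mono inter_subset_right X)
    generalize U S X = V at h1 h2
    generalize U T X = W at h2
    have : Finite (V ⊓ W :) :=
      Finite.of_injective _ (AddSubgroup.inclusion_injective (inf_le_left (b := W)))
    exact Nat.mul_le_mul_left _ (AddSubgroup.card_le_of_le h2)
  · intro g S
    rw [smul_U]
    exact congrArg (fun n : ℕ => Real.log n) (Set.natCard_smul_set g (U S X : Set A))

theorem limsup_le {ι : Type*} (l : Filter ι) [l.NeBot] (F : ι → Finset G) (hF : Folner l F)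
    (X : AddSubgroup A) [Finite X] (K : Finset G) (hK : K.Nonempty) :
    limsup (fun i => ENNReal.ofReal (Real.log (traj (F i) X : Set A).ncard / (F i).card)) l ≤
      ENNReal.ofReal (Real.log (Nat.card (U K X)) / #K) := by
  classical
  have h1 := ENNReal.tendsto_ofReal
    ((((hF.2 K⁻¹).mul_const (#K : ℝ)).const_add 1).mul_const (Real.log (Nat.card (U K X)) / #K))
  rw [zero_mul, add_zero, one_mul] at h1
  rw [← h1.limsup_eq]
  refine limsup_le_limsup (Eventually.of_forall fun i => ENNReal.ofReal_le_ofReal ?_)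
  have h2 := main X (F i) K
  have h3 : (#(F i * K⁻¹) : ℝ) ≤ _ := Nat.cast_le.2 (card_mul_le' (F i) K⁻¹)
  have h4 : (0 : ℝ) < #(F i) := by exact_mod_cast (hF.1 i).card_pos
  have h5 : (0 : ℝ) < #K := by exact_mod_cast hK.card_pos
  have h6 := Real.log_natCast_nonneg (Nat.card (U K X))
  rw [← coe_U, show (U (F i) X : Set A).ncard = Nat.card (U (F i) X) from rfl]
  push_cast [card_inv] at h3
  have h7 := h2.trans (mul_le_mul_of_nonneg_right h3 h6)
  rw [div_le_iff₀ h4, ← mul_le_mul_iff_right₀ h5]
  refine h7.trans (le_of_eq ?_)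
  field_simp

end

/-- Finite entropy on a subgroup of infinite index forces zero entropy. -/
theorem result {G A ι κ : Type*} [Group G] [AddCommGroup A] [DistribMulAction G A]
    (H : Subgroup G) [Infinite (G ⧸ H)]
    (l : Filter ι) [l.NeBot] (F : ι → Finset G) (hF : Folner l F)
    (l' : Filter κ) [l'.NeBot] (F' : κ → Finset H) (hF' : Folner l' F')
    (h : ent A l' F' < ⊤) : ent A l F = 0 := by
  classical
  refine le_antisymm (iSup₂_le fun X hX => ?_) zero_le
  have key : ∀ k : ℕ, 0 < k → k * limsup
      (fun i => ENNReal.ofReal (Real.log (traj (F i) X : Set A).ncard / (F i).card)) l ≤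
      ent A l' F' := by
    intro k hk
    obtain ⟨R, hR⟩ := Infinite.exists_subset_card_eq (G ⧸ H) k
    let Y := U (R.image fun r => r.out⁻¹) X
    have hY : Finite Y := finite_U _ _
    refine le_trans ?_ (le_iSup₂_of_le Y hY le_rfl)
    refine le_limsup_of_frequently_le (Frequently.of_forall fun j => ?_)
    let K := (F' j ×ˢ R).image fun p => (p.1 : G) * p.2.out⁻¹
    have hc : #K = #(F' j) * k := by
      rw [card_image_of_injective, card_product, hR]
      rintro ⟨f, r⟩ ⟨f', r'⟩ e
      have e : (f : G) * r.out⁻¹ = f' * r'.out⁻¹ := e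
      have e2 : r = r' := by
        rw [← r.out_eq, ← r'.out_eq]
        refine QuotientGroup.eq.2 ?_
        have : r.out⁻¹ * r'.out = (f⁻¹ * f' : H) := by
          rw [Subgroup.coe_mul, Subgroup.coe_inv, eq_inv_mul_iff_mul_eq, ← mul_assoc, e]
          simp
        exact this ▸ Subtype.prop _
      subst e2
      rw [Subtype.ext (mul_right_cancel e)]
    have hj := (hF'.1 j).card_pos
    have hU : U K X = U (F' j) Y := by
      apply le_antisymm
      · refine Finset.sup_le fun g hg => ?_
        obtain ⟨⟨f, r⟩, hp, rfl⟩ := mem_image.1 hg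
        refine le_trans ?_ (le_sup (f := fun g : H => g • Y) (mem_product.1 hp).1)
        rw [mul_smul]
        exact (AddSubgroup.pointwise_smul_le_pointwise_smul_iff (a := (f : G))).2
          (le_sup (f := fun g : G => g • X) (mem_image_of_mem _ (mem_product.1 hp).2))
      · refine Finset.sup_le fun f hf => ?_
        refine (AddSubgroup.pointwise_smul_le_iff (a := (f : G))).2 (Finset.sup_le fun g hg => ?_)
        obtain ⟨r, hr, rfl⟩ := mem_image.1 hg
        rw [← AddSubgroup.pointwise_smul_le_iff, ← mul_smul]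
        exact le_sup (f := fun g : G => g • X) (mem_image.2 ⟨(f, r), mem_product.2 ⟨hf, hr⟩, rfl⟩)
    have := limsup_le l F hF X K (card_pos.1 (hc ▸ Nat.mul_pos hj hk))
    refine (mul_le_mul_right this _).trans (le_of_eq ?_)
    rw [hU, hc, ← coe_U, ← ENNReal.ofReal_natCast, ← ENNReal.ofReal_mul (by positivity)]
    congr 1
    rw [show (U (F' j) Y : Set A).ncard = Nat.card (U (F' j) Y) from rfl]
    push_cast
    field_simp
  by_contra h0
  obtain ⟨k, hk⟩ := ENNReal.exists_nat_mul_gt (fun e => h0 (le_of_eq e)) h.ne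
  exact (hk.trans_le (key k (Nat.pos_of_ne_zero (by rintro rfl; simp at hk)))).false

end Pool.Agent.Results.MP_2cfe26_al.Vanishes
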